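import Pool.Agent.H2TV.AllK
import Pool.Agent.H2TV.Crc
import Pool.Agent.H2TV.Cor

/-!
The vortex lines are bent at the singular points of Navier-Stokes flows.

`V` is `ℝ³` with the maximum norm (the balls are cubes), `len` is the Euclidean length, `vort v` is
the curl of `v` and `om v` its length. A point `a` is singular at the time `T` (`Sing T u a`) if `u`
is unbounded in every neighbourhood of `(T, a)`.

Let `ω = curl u(t)` and `ξ = ω / |ω|`. The theorem: if `a` is singular then there is an `ε > 0` such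
that for all `M`, in all neighbourhoods of `(T, a)`, the arcs of the vortex lines on which `|ω| > M`
are not straight up to `ε` and up to a function of small flux: there are times `t` such that for
every continuous function `k ≥ 0` with `∫ k |ω| dy ≤ ε` (over the part of the neighbourhood where
`|ω| > M`) there is such an arc for which the distance of the end points is less than
`1 - ε - ∫ k ds` times the length (the last integral is over the arc).

So `a` is not singular if there are functions `k(t) ≥ 0` of small flux with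
`chord / length ≥ 1 - ε - ∫ k ds` for the arcs of the vortex lines. There are two main special cases.

* `k = 0`: the arcs of the vortex lines in `{|y - a| ≤ R, |ω| > M}` are asymptotically straight, for
  `t → T`, `R → 0`, `M → ∞`. This is so if the direction `ξ` has along them, up to the sign, any
  modulus of continuity. Constantin and Fefferman proved this for directions which are Lipschitz
  continuous in `{|ω| > M}`, Beirao da Veiga and Berselli for directions which are Hölder continuous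
  with the exponent `1 / 2`, Giga and Miura for arbitrary moduli if the blow-up is of type I. Here
  the directions of different vortex lines through nearby points are not compared, the direction may
  turn along the vortex lines (slowly, as for a logarithmic spiral of small slope), and there is no
  condition on the rate of the blow-up.
* `k = 8 (κ - m)⁺`, where `κ = |(ξ · ∇) ξ|` is the curvature of the vortex lines and `m(t) ≥ 0` has a
  small integral with respect to the one-dimensional Hausdorff content, for example `m` is constant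
  and the cube is small, or `m = h(|y - a|) / |y - a|` with `∫₀ h(r) / r dr < ∞` and `h(r) / r`
  nonincreasing: the integral of `(κ - m)⁺ |ω|` does not tend to `0`. So `a` is not singular if the
  curvature of the vortex lines is bounded where `|ω| > M`, or if `κ |ω|` is uniformly integrable.

Both may be combined: `|ξ(y) - ξ(z)| ≤ ε + ∫ k ds` for the end points `y`, `z` of the arcs
(`oscillation` below).
-/

open MeasureTheory Set Metric
open scoped ENNReal NNReal
open H459R3.NS Pool.Agent.W268.NS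
open Pool.Agent.Q67.VD (om len)
open Pool.Agent.Q85.CL (Sing Blow DSl WSl)

set_option autoImplicit false

namespace Pool.Agent.Results.MP_6bf1e5_an.BentVortexLines

/-- The direction of the vorticity of `v`. -/
noncomputable def dir (v : V → V) (y : V) : V := (om v y)⁻¹ • vort v y

/-- The part of the cube `‖y - a‖ ≤ R` where the vorticity is larger than `M`. -/
def Part (v : V → V) (a : V) (R M : ℝ) : Set V := {y | ‖y - a‖ ≤ R ∧ M < om v y}

/-- The unit speed curve `γ : [0, l] → D`, `l > 0`, is an arc of a vortex line of `v`: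
`γ' = ω / |ω|`. -/
def VortexArc (v : V → V) (D : Set V) (γ : ℝ → V) (l : ℝ) : Prop :=
  0 < l ∧ ∀ s ∈ Icc (0 : ℝ) l, γ s ∈ D ∧ HasDerivWithinAt γ (dir v (γ s)) (Icc 0 l) s

/-- The function `k` is continuous and nonnegative in `D`, and the integral of `k |ω|` over `D` is at
most `ε`; `ω = curl v`. -/
def FluxLe (v : V → V) (D : Set V) (ε : ℝ) (k : V → ℝ) : Prop :=
  ContinuousOn k D ∧ (∀ y ∈ D, 0 ≤ k y) ∧
    ∫⁻ y in D, ENNReal.ofReal (k y * om v y) ≤ ENNReal.ofReal ε

/-- There is an `ε > 0` such that for all `M`, all `0 ≤ T₀ < T` and all cubes `‖y - a‖ ≤ R` in `Ω`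
there is a time `t` in `(T₀, T)` such that, for all functions `k ≥ 0`, continuous in the part of the
cube where `|ω| > M`, for which the integral of `k |ω|` over this part is at most `ε`, there is in
this part an arc of a vortex line of `u(t)` for which the distance of the end points is less than
`1 - ε - ∫ k ds` times the length; here the integral is over the arc and `ω = curl u(t)`. -/
def BentAt (T : ℝ) (Ω : Set V) (u : ℝ → V → V) (a : V) : Prop :=
  ∃ ε : ℝ, 0 < ε ∧ ∀ M T₀ R : ℝ, 0 ≤ T₀ → T₀ < T → 0 < R → closedBall a R ⊆ Ω →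
    ∃ t ∈ Ioo T₀ T, ∀ k : V → ℝ, FluxLe (u t) (Part (u t) a R M) ε k →
      ∃ (γ : ℝ → V) (l : ℝ), VortexArc (u t) (Part (u t) a R M) γ l ∧
        len (γ l - γ 0) < (1 - ε - ∫ s in (0 : ℝ)..l, k (γ s)) * l

lemma bentAt {T : ℝ} {Ω : Set V} {u : ℝ → V → V} {a : V} (h : H2TV.BendsC T Ω u a) :
    BentAt T Ω u a := by
  obtain ⟨ε, hε, h⟩ := h.1
  refine ⟨ε, hε, fun M T₀ R h0 h1 h2 h3 => ?_⟩
  obtain ⟨t, ht, h⟩ := h M T₀ R h0 h1 h2 h3
  refine ⟨t, ht, fun k hk => ?_⟩
  obtain ⟨γ, l, hl, hγ, hlt⟩ := h k hk.1 hk.2.1 hk.2.2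
  exact ⟨γ, l, ⟨hl, hγ⟩, hlt⟩

/-- The bending of the vortex lines at the singular points, for smooth solutions of the
Navier-Stokes equations without force, with viscosity `ν > 0`,

(a) in `(0, T) × Ω`, `Ω` open, with finite energy, finite dissipation and integrable pressure;

(b) in `(0, T) × ℝ³` with bounded energy, finite dissipation and pressure integrable over
`(0, T) × B` for balls `B`;

(c) periodic, on `[0, T) × ℝ³`.

In the cases (b) and (c) there is a singular point if `u` is unbounded near the time `T`. -/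
theorem result (ν T : ℝ) (u : ℝ → V → V) (p : ℝ → V → ℝ) (hν : 0 < ν) :
    (∀ (E : ℝ) (Ω : Set V), DSl ν T E Ω u p → ∀ a ∈ Ω, Sing T u a → BentAt T Ω u a) ∧
    (∀ E : ℝ, WSl ν T E u p →
      (Blow T u → ∃ a, Sing T u a) ∧ ∀ a, Sing T u a → BentAt T univ u a) ∧
    (IsSol ν T u p → (Blow T u → ∃ a, Sing T u a) ∧ ∀ a, Sing T u a → BentAt T univ u a) :=
  ⟨fun _ _ h _ ha hs => bentAt (H2TV.bendsK_D hν h ha hs),
    fun _ h => ⟨(H2TV.bendsK_W hν h).1, fun a hs => bentAt ((H2TV.bendsK_W hν h).2 a hs)⟩,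
    fun h => ⟨(H2TV.bendsK_P hν h).1, fun a hs => bentAt ((H2TV.bendsK_P hν h).2 a hs)⟩⟩

/-! ### Special cases

In the cases (a), (b), (c) above the vorticity `curl u(t)` is smooth in `Ω` for `0 < t < T`. -/

lemma part_mono {v : V → V} {a : V} {R R' M M' : ℝ} (hR : R' ≤ R) (hM : M ≤ M') :
    Part v a R' M' ⊆ Part v a R M := fun _ hy => ⟨hy.1.trans hR, hM.trans_lt hy.2⟩

lemma FluxLe.mono {v : V → V} {D D' : Set V} {ε ε' : ℝ} {k : V → ℝ} (h : FluxLe v D ε k)
    (hD : D' ⊆ D) (hε : ε ≤ ε') : FluxLe v D' ε' k :=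
  ⟨h.1.mono hD, fun y hy => h.2.1 y (hD hy),
    (lintegral_mono_set hD).trans (h.2.2.trans (ENNReal.ofReal_le_ofReal hε))⟩

lemma VortexArc.mono {v : V → V} {D D' : Set V} {γ : ℝ → V} {l : ℝ} (h : VortexArc v D γ l)
    (hD : D ⊆ D') : VortexArc v D' γ l := ⟨h.1, fun s hs => ⟨hD (h.2 s hs).1, (h.2 s hs).2⟩⟩

lemma VortexArc.sub {v : V → V} {D : Set V} {γ : ℝ → V} {l s : ℝ} (h : VortexArc v D γ l)
    (hs : 0 < s) (hsl : s ≤ l) : VortexArc v D γ s :=
  ⟨hs, fun r hr => ⟨(h.2 r ⟨hr.1, hr.2.trans hsl⟩).1,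
    (h.2 r ⟨hr.1, hr.2.trans hsl⟩).2.mono (Icc_subset_Icc_right hsl)⟩⟩

lemma VortexArc.cont {v : V → V} {D : Set V} {γ : ℝ → V} {l : ℝ} (h : VortexArc v D γ l) :
    ContinuousOn γ (Icc 0 l) := fun s hs => (h.2 s hs).2.continuousWithinAt

lemma VortexArc.int_mono {v : V → V} {D : Set V} {γ : ℝ → V} {l s : ℝ} (h : VortexArc v D γ l)
    {k : V → ℝ} (hk : ContinuousOn k D) (hk0 : ∀ y ∈ D, 0 ≤ k y) (hs : 0 ≤ s) (hsl : s ≤ l) :
    ∫ r in (0 : ℝ)..s, k (γ r) ≤ ∫ r in (0 : ℝ)..l, k (γ r) := by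
  have hc : ContinuousOn (fun r => k (γ r)) (Icc 0 l) := hk.comp h.cont fun r hr => (h.2 r hr).1
  rw [intervalIntegral.integral_of_le hs, intervalIntegral.integral_of_le (hs.trans hsl)]
  refine setIntegral_mono_set ((hc.integrableOn_compact isCompact_Icc).mono_set Ioc_subset_Icc_self)
    ?_ (Ioc_subset_Ioc_right hsl).eventuallyLE
  exact (ae_restrict_iff' measurableSet_Ioc).2 (Filter.Eventually.of_forall fun r hr =>
    hk0 _ (h.2 r (Ioc_subset_Icc_self hr)).1)

/-- The case `k = 0`: the distance of the end points is less than `1 - ε` times the length. -/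
theorem bending {T : ℝ} {Ω : Set V} {u : ℝ → V → V} {a : V} (h : BentAt T Ω u a) :
    ∃ ε : ℝ, 0 < ε ∧ ∀ M T₀ R : ℝ, 0 ≤ T₀ → T₀ < T → 0 < R → closedBall a R ⊆ Ω →
      ∃ t ∈ Ioo T₀ T, ∃ (γ : ℝ → V) (l : ℝ), VortexArc (u t) (Part (u t) a R M) γ l ∧
        len (γ l - γ 0) < (1 - ε) * l := by
  obtain ⟨ε, hε, h⟩ := h
  refine ⟨ε, hε, fun M T₀ R h0 h1 h2 h3 => ?_⟩
  obtain ⟨t, ht, h⟩ := h M T₀ R h0 h1 h2 h3
  obtain ⟨γ, l, hγ, hlt⟩ := h (fun _ => 0) ⟨continuousOn_const, fun _ _ => le_rfl, by simp⟩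
  refine ⟨t, ht, γ, l, hγ, ?_⟩
  simpa using hlt

/-- The direction of the vorticity turns along the vortex lines at the singular points, by more than
`ε` and more than the integral of a function of small flux. -/
theorem oscillation {T : ℝ} {Ω : Set V} {u : ℝ → V → V} {a : V} (h : BentAt T Ω u a) :
    ∃ ε : ℝ, 0 < ε ∧ ∀ M T₀ R : ℝ, 0 ≤ T₀ → T₀ < T → 0 < R → closedBall a R ⊆ Ω →
      ∃ t ∈ Ioo T₀ T, ∀ k : V → ℝ, FluxLe (u t) (Part (u t) a R M) ε k →
        ∃ (γ : ℝ → V) (l : ℝ), VortexArc (u t) (Part (u t) a R M) γ l ∧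
          ε + ∫ s in (0 : ℝ)..l, k (γ s) < len (dir (u t) (γ l) - dir (u t) (γ 0)) := by
  obtain ⟨ε, hε, h⟩ := h
  refine ⟨ε, hε, fun M T₀ R h0 h1 h2 h3 => ?_⟩
  obtain ⟨t, ht, h⟩ := h (max M 0) T₀ R h0 h1 h2 h3
  refine ⟨t, ht, fun k hk => ?_⟩
  have hD : Part (u t) a R (max M 0) ⊆ Part (u t) a R M := part_mono le_rfl (le_max_left _ _)
  obtain ⟨γ, l, hγ, hlt⟩ := h k (hk.mono hD le_rfl)
  by_contra hcon
  push Not at hcon
  have hl := hγ.1
  have hi0 : (0 : ℝ) ∈ Icc (0 : ℝ) l := ⟨le_rfl, hl.le⟩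
  have hpos : ∀ s ∈ Icc (0 : ℝ) l, 0 < om (u t) (γ s) := fun s hs =>
    (le_max_right _ _).trans_lt (hγ.2 s hs).1.2
  have hK : ∀ s ∈ Icc (0 : ℝ) l, ∫ r in (0 : ℝ)..s, k (γ r) ≤ ∫ r in (0 : ℝ)..l, k (γ r) :=
    fun s hs => hγ.int_mono (hk.1.mono hD) (fun y hy => hk.2.1 y (hD hy)) hs.1 hs.2
  have hK0 : 0 ≤ ∫ r in (0 : ℝ)..l, k (γ r) := by
    have := hK 0 hi0
    rwa [intervalIntegral.integral_same] at this
  have hle : ∀ s ∈ Icc (0 : ℝ) l, len (dir (u t) (γ s) - dir (u t) (γ 0))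
      ≤ ε + ∫ r in (0 : ℝ)..l, k (γ r) := by
    intro s hs
    rcases hs.1.eq_or_lt with h4 | h4
    · rw [← h4, sub_self]
      have : len (0 : V) = 0 := by simp [len]
      rw [this]
      linarith
    · have h5 := hcon γ s ((hγ.sub h4 hs.2).mono hD)
      linarith [hK s hs]
  have h5 := H2TV.chord_dot (c := 1 - ε - ∫ s in (0 : ℝ)..l, k (γ s)) hl (fun s hs => (hγ.2 s hs).2)
    (H2TV.xi_unit (hpos 0 hi0)) (fun s hs => by
      have h6 := H2TV.dot_of_len (H2TV.xi_unit (hpos 0 hi0)) (H2TV.xi_unit (hpos s hs)) (hle s hs)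
      have h7 : 1 - (ε + ∫ r in (0 : ℝ)..l, k (γ r)) ≤ dir (u t) (γ 0) ⬝ᵥ dir (u t) (γ s) := h6
      exact le_trans (by linarith) h7)
  linarith

lemma FluxLe.mul {v : V → V} {D : Set V} {ε c : ℝ} {k : V → ℝ} (h : FluxLe v D (ε / c) k)
    (hc : 0 < c) : FluxLe v D ε (fun y => c * k y) := by
  refine ⟨continuousOn_const.mul h.1, fun y hy => mul_nonneg hc.le (h.2.1 y hy), ?_⟩
  have e : ∀ y, ENNReal.ofReal (c * k y * om v y)
      = ENNReal.ofReal c * ENNReal.ofReal (k y * om v y) := fun y => by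
    rw [mul_assoc, ENNReal.ofReal_mul hc.le]
  simp_rw [e]
  rw [lintegral_const_mul' _ _ ENNReal.ofReal_ne_top]
  refine (mul_le_mul_right h.2.2 _).trans (le_of_eq ?_)
  rw [← ENNReal.ofReal_mul hc.le]
  congr 1
  field_simp

/-- The special case of a modulus of continuity `σ` along the vortex lines, up to the sign. -/
theorem modulus {T : ℝ} {Ω : Set V} {u : ℝ → V → V} {a : V} (h : BentAt T Ω u a)
    (hu : ∀ t ∈ Ioo 0 T, ContinuousOn (vort (u t)) Ω) {σ : ℝ → ℝ}
    (hσ : Filter.Tendsto σ (nhdsWithin 0 (Ioi 0)) (nhds 0)) :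
    ∃ ε : ℝ, 0 < ε ∧ ∀ M T₀ R : ℝ, 0 ≤ T₀ → T₀ < T → 0 < R → closedBall a R ⊆ Ω →
      ∃ t ∈ Ioo T₀ T, ∀ k : V → ℝ, FluxLe (u t) (Part (u t) a R M) ε k →
        ∃ (γ : ℝ → V) (l : ℝ), VortexArc (u t) (Part (u t) a R M) γ l ∧ γ l ≠ γ 0 ∧
          σ ‖γ l - γ 0‖ + ∫ s in (0 : ℝ)..l, k (γ s)
            < len (crossProduct (dir (u t) (γ 0)) (dir (u t) (γ l))) := by
  obtain ⟨ε, hε, h⟩ := h
  refine ⟨ε / 4, by positivity, fun M T₀ R h0 h1 h2 h3 => ?_⟩
  obtain ⟨κ, hκ⟩ : ∃ κ, κ = min ε (1 / 4) := ⟨_, rfl⟩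
  have hκ0 : 0 < κ := by rw [hκ]; exact lt_min hε (by norm_num)
  have hκ1 : κ ≤ 1 / 4 := by rw [hκ]; exact min_le_right _ _
  have hκε : κ ≤ ε := by rw [hκ]; exact min_le_left _ _
  obtain ⟨δ, hδ, hsm⟩ := Metric.mem_nhdsWithin_iff.1 (hσ (Iio_mem_nhds hκ0))
  obtain ⟨r, hr⟩ : ∃ r, r = min R (δ / 4) := ⟨_, rfl⟩
  have hr0 : 0 < r := by rw [hr]; exact lt_min h2 (by positivity)
  have hrR : r ≤ R := by rw [hr]; exact min_le_left _ _
  have hrδ : r ≤ δ / 4 := by rw [hr]; exact min_le_right _ _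
  obtain ⟨t, ht, h⟩ := h (max M 0) T₀ r h0 h1 hr0 ((closedBall_subset_closedBall hrR).trans h3)
  refine ⟨t, ht, fun k hk => ?_⟩
  have hD : Part (u t) a r (max M 0) ⊆ Part (u t) a R M := part_mono hrR (le_max_left _ _)
  obtain ⟨γ, l, hγ, hlt⟩ := h (fun y => 4 * k y) ((hk.mul (by norm_num)).mono hD le_rfl)
  by_contra hcon
  push Not at hcon
  have hl := hγ.1
  have hi0 : (0 : ℝ) ∈ Icc (0 : ℝ) l := ⟨le_rfl, hl.le⟩
  have hpos : ∀ s ∈ Icc (0 : ℝ) l, 0 < om (u t) (γ s) := fun s hs =>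
    (le_max_right _ _).trans_lt (hγ.2 s hs).1.2
  have hunit : ∀ s ∈ Icc (0 : ℝ) l, dir (u t) (γ s) ⬝ᵥ dir (u t) (γ s) = 1 := fun s hs =>
    H2TV.xi_unit (hpos s hs)
  have hK : ∀ s ∈ Icc (0 : ℝ) l, ∫ r in (0 : ℝ)..s, k (γ r) ≤ ∫ r in (0 : ℝ)..l, k (γ r) :=
    fun s hs => hγ.int_mono (hk.1.mono hD) (fun y hy => hk.2.1 y (hD hy)) hs.1 hs.2
  obtain ⟨K, hKd⟩ : ∃ K, K = ∫ r in (0 : ℝ)..l, k (γ r) := ⟨_, rfl⟩
  have hK0 : 0 ≤ K := by
    have := hK 0 hi0
    rwa [intervalIntegral.integral_same, ← hKd] at this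
  rw [intervalIntegral.integral_const_mul, ← hKd] at hlt
  have hK4 : K < 1 / 4 := by
    have h4 : 0 < (1 - ε - 4 * K) * l := (Pool.Agent.Q67.VD.len_nonneg _).trans_lt hlt
    have h5 : 0 < 1 - ε - 4 * K := by
      by_contra h6
      rw [not_lt] at h6
      nlinarith
    linarith
  have hcr : ∀ s ∈ Icc (0 : ℝ) l,
      len (crossProduct (dir (u t) (γ 0)) (dir (u t) (γ s))) ≤ κ + K := by
    intro s hs
    by_cases hne : γ s = γ 0
    · rw [hne, cross_self]
      have : len (0 : V) = 0 := by simp [len]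
      rw [this]
      positivity
    · have hs0 : 0 < s := by
        rcases hs.1.eq_or_lt with h4 | h4
        · exact absurd (by rw [← h4]) hne
        · exact h4
      have h4 := hcon γ s ((hγ.sub hs0 hs.2).mono hD) hne
      have hd0 : 0 < ‖γ s - γ 0‖ := norm_pos_iff.2 (sub_ne_zero.2 hne)
      have hd1 : ‖γ s - γ 0‖ < δ := by
        have e : γ s - γ 0 = (γ s - a) - (γ 0 - a) := by abel
        rw [e]
        have h5 := (hγ.2 0 hi0).1.1
        have h6 := (hγ.2 s hs).1.1
        exact (norm_sub_le _ _).trans_lt (by linarith)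
      have h5 : ‖γ s - γ 0‖ ∈ ball (0 : ℝ) δ ∩ Ioi 0 := by
        refine ⟨?_, hd0⟩
        rw [mem_ball_zero_iff, Real.norm_eq_abs, abs_of_pos hd0]
        exact hd1
      have h6 : σ ‖γ s - γ 0‖ < κ := hsm h5
      have h7 := hK s hs
      rw [← hKd] at h7
      linarith
  -- the inner product does not vanish
  have hcont : ContinuousOn (fun s => dir (u t) (γ 0) ⬝ᵥ dir (u t) (γ s)) (Icc 0 l) := by
    have hv : ContinuousOn (fun s => vort (u t) (γ s)) (Icc 0 l) :=
      (hu t ⟨h0.trans_lt ht.1, ht.2⟩).comp hγ.cont fun s hs => h3 (by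
        rw [mem_closedBall, dist_eq_norm]
        exact (hγ.2 s hs).1.1.trans hrR)
    have hvi : ∀ i : Fin 3, ContinuousOn (fun s => vort (u t) (γ s) i) (Icc 0 l) := fun i =>
      (continuous_apply i).comp_continuousOn hv
    have ho : ContinuousOn (fun s => om (u t) (γ s)) (Icc 0 l) := by
      unfold om len
      refine ContinuousOn.sqrt ?_
      simp only [Pool.Agent.Q151.CC.dot3]
      fun_prop
    have hoi : ContinuousOn (fun s => (om (u t) (γ s))⁻¹) (Icc 0 l) :=
      ho.inv₀ fun s hs => (hpos s hs).ne'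
    unfold dir
    simp only [Pool.Agent.Q151.CC.dot3, Pi.smul_apply, smul_eq_mul]
    fun_prop
  have hsq : ∀ s ∈ Icc (0 : ℝ) l, dir (u t) (γ 0) ⬝ᵥ dir (u t) (γ s) ≠ 0 := by
    intro s hs h4
    have h5 := Pool.Agent.H1CV.lagr2 (dir (u t) (γ 0)) (dir (u t) (γ s))
    rw [hunit 0 hi0, hunit s hs, ← Pool.Agent.H1CV.len_sq', h4] at h5
    have h6 := pow_le_pow_left₀ (Pool.Agent.Q67.VD.len_nonneg _) (hcr s hs) 2
    nlinarith
  have hdot : ∀ s ∈ Icc (0 : ℝ) l, 0 ≤ dir (u t) (γ 0) ⬝ᵥ dir (u t) (γ s) := by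
    intro s hs
    by_contra hneg
    rw [not_le] at hneg
    have h4 : (0 : ℝ) ∈ (fun s => dir (u t) (γ 0) ⬝ᵥ dir (u t) (γ s)) '' Icc 0 s :=
      intermediate_value_Icc' hs.1 (hcont.mono (Icc_subset_Icc_right hs.2)) ⟨hneg.le, by
        show 0 ≤ dir (u t) (γ 0) ⬝ᵥ dir (u t) (γ 0)
        rw [hunit 0 hi0]
        norm_num⟩
    obtain ⟨r, hr', hr0'⟩ := h4
    exact hsq r ⟨hr'.1, hr'.2.trans hs.2⟩ hr0'
  have h5 := H2TV.chord_dot (c := 1 - ε - 4 * K) hl (fun s hs => (hγ.2 s hs).2) (hunit 0 hi0)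
    (fun s hs => le_trans (by linarith)
      (H2TV.dot_of_cross (hunit 0 hi0) (hunit s hs) (hcr s hs) (by linarith) (hdot s hs)))
  linarith

/-! ### The curvature of the vortex lines -/

/-- The length of the vorticity `ω = curl v` times the curvature of the vortex line through `y`:
`|ω × (ω · ∇) ω| / |ω|²` (with the value `0` where `ω = 0`). -/
noncomputable def omCurv (v : V → V) (y : V) : ℝ :=
  len (crossProduct (vort v y) (fderiv ℝ (vort v) y (vort v y))) / om v y ^ 2

/-- The one-dimensional Hausdorff content: the infimum of the sums of the radii of the countable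
coverings by closed cubes. -/
noncomputable def content (S : Set V) : ℝ≥0∞ :=
  ⨅ (x : ℕ → V) (r : ℕ → ℝ≥0) (_ : S ⊆ ⋃ i, closedBall (x i) (r i)), ∑' i, (r i : ℝ≥0∞)

/-- The integral of `m` over `Q` with respect to the one-dimensional content: the integral over
`l > 0` of the content of the set of the points of `Q` at which `m > l`. -/
noncomputable def contentIntegral (Q : Set V) (m : V → ℝ) : ℝ≥0∞ :=
  ∫⁻ l in Ioi (0 : ℝ), content {y ∈ Q | l < m y}

/-- At a singular point the integral of `(κ - m)⁺ |ω|`, where `|ω| > M`, does not tend to `0`, for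
functions `m(t) ≥ 0` of small content integral; `κ` is the curvature of the vortex lines. -/
theorem curvature {T : ℝ} {Ω : Set V} {u : ℝ → V → V} {a : V} (h : BentAt T Ω u a)
    (hΩ : IsOpen Ω) (hu : ∀ t ∈ Ioo 0 T, ContDiffOn ℝ 1 (vort (u t)) Ω) :
    ∃ μ : ℝ, 0 < μ ∧ ∀ M T₀ R : ℝ, 0 ≤ T₀ → T₀ < T → 0 < R → closedBall a R ⊆ Ω →
      ∃ t ∈ Ioo T₀ T, ∀ m : V → ℝ, Continuous m → (∀ y, 0 ≤ m y) →
        contentIntegral (closedBall a R) m ≤ ENNReal.ofReal μ →
        ENNReal.ofReal μ < ∫⁻ y in Part (u t) a R M,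
          ENNReal.ofReal (omCurv (u t) y - m y * om (u t) y) := by
  obtain ⟨ε, hε, h⟩ := h
  obtain ⟨μ, hμd⟩ : ∃ μ, μ = min (ε / 8) (1 / 64) := ⟨_, rfl⟩
  have hμ : 0 < μ := by rw [hμd]; exact lt_min (by positivity) (by norm_num)
  have hμε : μ ≤ ε / 8 := by rw [hμd]; exact min_le_left _ _
  have hμ1 : μ ≤ 1 / 64 := by rw [hμd]; exact min_le_right _ _
  refine ⟨μ, hμ, fun M T₀ R h0 h1 h2 h3 => ?_⟩
  obtain ⟨t, ht, h⟩ := h (max M 0) T₀ R h0 h1 h2 h3
  refine ⟨t, ht, fun m hm hm0 hc => ?_⟩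
  have hut := hu t ⟨h0.trans_lt ht.1, ht.2⟩
  have hD : Part (u t) a R (max M 0) ⊆ Part (u t) a R M := part_mono le_rfl (le_max_left _ _)
  have hpos : ∀ y ∈ Part (u t) a R (max M 0), 0 < om (u t) y := fun y hy =>
    (le_max_right _ _).trans_lt hy.2
  have hcb : ∀ y ∈ Part (u t) a R (max M 0), y ∈ closedBall a R := fun y hy => by
    rw [mem_closedBall, dist_eq_norm]
    exact hy.1
  have hkp : ∀ y, omCurv (u t) y = H2TV.kp (vort (u t)) y * om (u t) y := by
    intro y
    unfold omCurv H2TV.kp om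
    by_cases h4 : len (vort (u t) y) = 0
    · rw [h4]
      simp
    · field_simp
  by_contra hcon
  rw [not_lt] at hcon
  have hkc : ContinuousOn (fun y => H2TV.kp (vort (u t)) y - m y) (Part (u t) a R (max M 0)) :=
    (H2TV.kp_contOn hΩ hut fun y hy => ⟨h3 (hcb y hy), fun h4 => by
      have := hpos y hy
      unfold om at this
      rw [h4] at this
      simp [len] at this⟩).sub hm.continuousOn
  obtain ⟨γ, l, hγ, hlt⟩ := h (fun y => 8 * max (H2TV.kp (vort (u t)) y - m y) 0)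
    (FluxLe.mul ⟨hkc.sup continuousOn_const, fun y _ => le_max_right _ _, by
      refine le_trans (lintegral_mono_set hD) (le_trans (lintegral_mono fun y => ?_)
        (hcon.trans (ENNReal.ofReal_le_ofReal hμε)))
      have h4 : max (H2TV.kp (vort (u t)) y - m y) 0 * om (u t) y
          = max (omCurv (u t) y - m y * om (u t) y) 0 := by
        have h5 : 0 ≤ om (u t) y := Pool.Agent.Q67.VD.len_nonneg _
        rw [hkp y, ← sub_mul, max_mul_of_nonneg _ _ h5, zero_mul]
      show ENNReal.ofReal (max (H2TV.kp (vort (u t)) y - m y) 0 * om (u t) y)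
        ≤ ENNReal.ofReal (omCurv (u t) y - m y * om (u t) y)
      rw [h4]
      rcases le_total (omCurv (u t) y - m y * om (u t) y) 0 with h5 | h5
      · rw [max_eq_right h5]
        simp
      · rw [max_eq_left h5]⟩ (by norm_num))
  have hl := hγ.1
  rw [intervalIntegral.integral_const_mul] at hlt
  obtain ⟨K, hKd⟩ : ∃ K, K = ∫ s in (0 : ℝ)..l, max (H2TV.kp (vort (u t)) (γ s) - m (γ s)) 0 :=
    ⟨_, rfl⟩
  rw [← hKd] at hlt
  have hK8 : K < 1 / 8 := by
    have h4 : 0 < (1 - ε - 8 * K) * l := (Pool.Agent.Q67.VD.len_nonneg _).trans_lt hlt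
    have h5 : 0 < 1 - ε - 8 * K := by
      by_contra h6
      rw [not_lt] at h6
      nlinarith
    linarith
  have hK0 : 0 ≤ K := by
    rw [hKd]
    exact intervalIntegral.integral_nonneg hl.le fun s _ => le_max_right _ _
  have h5 := H2TV.chord_content hΩ hut hl (γ := γ) (fun s hs => ⟨h3 (hcb _ (hγ.2 s hs).1),
    hpos _ (hγ.2 s hs).1, (hγ.2 s hs).2⟩) (D := closedBall a R)
    isClosed_closedBall.measurableSet (fun s hs => hcb _ (hγ.2 s hs).1) hm hm0 hμ.le hμ1 hc
    (by rw [← hKd]; exact hK8.le)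
  rw [← hKd] at h5
  have h6 : (1 - ε - 8 * K) * l ≤ (1 - K - 8 * μ) * l :=
    mul_le_mul_of_nonneg_right (by linarith) hl.le
  linarith

/-- The content of a cube. -/
lemma content_closedBall (a : V) {R : ℝ} (hR : 0 ≤ R) :
    content (closedBall a R) ≤ ENNReal.ofReal R := by
  unfold content
  refine (iInf_le _ (fun _ : ℕ => a)).trans ((iInf_le _
    (fun i : ℕ => if i = 0 then R.toNNReal else 0)).trans ((iInf_le _ ?_).trans ?_))
  · intro y hy
    refine mem_iUnion.2 ⟨0, ?_⟩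
    simpa [Real.coe_toNNReal R hR] using hy
  · rw [tsum_eq_single 0 (fun i hi => by simp [hi])]
    simp [ENNReal.ofReal]

/-- The case `m = A` constant: an amount `μ` of the integral of `κ |ω|` concentrates at the singular
point in the region where `κ > A` and `|ω| > M`, for all `A` and `M`. In particular the curvature of
the vortex lines is not bounded in any neighbourhood of a singular point where `|ω| > M`. -/
theorem curvature_const {T : ℝ} {Ω : Set V} {u : ℝ → V → V} {a : V} (h : BentAt T Ω u a)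
    (hΩ : IsOpen Ω) (hu : ∀ t ∈ Ioo 0 T, ContDiffOn ℝ 1 (vort (u t)) Ω) :
    ∃ μ : ℝ, 0 < μ ∧ ∀ A M T₀ R : ℝ, 0 ≤ A → 0 ≤ T₀ → T₀ < T → 0 < R → closedBall a R ⊆ Ω →
      ∃ t ∈ Ioo T₀ T, ENNReal.ofReal μ < ∫⁻ y in Part (u t) a R M,
        ENNReal.ofReal (omCurv (u t) y - A * om (u t) y) := by
  obtain ⟨μ, hμ, h⟩ := curvature h hΩ hu
  refine ⟨μ, hμ, fun A M T₀ R hA h0 h1 h2 h3 => ?_⟩
  obtain ⟨r, hr⟩ : ∃ r, r = min R (μ / (A + 1)) := ⟨_, rfl⟩
  have hr0 : 0 < r := by rw [hr]; exact lt_min h2 (by positivity)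
  have hrR : r ≤ R := by rw [hr]; exact min_le_left _ _
  have hrμ : r ≤ μ / (A + 1) := by rw [hr]; exact min_le_right _ _
  obtain ⟨t, ht, h⟩ := h M T₀ r h0 h1 hr0 ((closedBall_subset_closedBall hrR).trans h3)
  refine ⟨t, ht, (h (fun _ => A) continuous_const (fun _ => hA) ?_).trans_le
    (lintegral_mono_set (part_mono hrR le_rfl))⟩
  have h4 : ∀ l ∈ Ioi (0 : ℝ), content {y ∈ closedBall a r | l < A}
      ≤ (Iio A).indicator (fun _ => ENNReal.ofReal r) l := by
    intro l _
    by_cases hl : l < A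
    · rw [indicator_of_mem (show l ∈ Iio A from hl)]
      have e : {y ∈ closedBall a r | l < A} = closedBall a r := by
        ext y
        simp [hl]
      rw [e]
      exact content_closedBall a hr0.le
    · have e : {y ∈ closedBall a r | l < A} = ∅ := by
        ext y
        simp [hl]
      rw [e, indicator_of_notMem (show l ∉ Iio A from hl)]
      refine (H2CV.content_mono (empty_subset (closedBall a 0))).trans ?_
      exact (content_closedBall a le_rfl).trans (by simp)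
  refine (setLIntegral_mono ((measurable_const.indicator measurableSet_Iio)) h4).trans ?_
  rw [lintegral_indicator measurableSet_Iio, Measure.restrict_restrict measurableSet_Iio,
    lintegral_const, Measure.restrict_apply_univ]
  have e : Iio A ∩ Ioi (0 : ℝ) = Ioo 0 A := by
    ext l
    simp [and_comm]
  rw [e, Real.volume_Ioo, sub_zero, ← ENNReal.ofReal_mul hr0.le]
  refine ENNReal.ofReal_le_ofReal ?_
  calc r * A ≤ μ / (A + 1) * A := mul_le_mul_of_nonneg_right hrμ hA
    _ ≤ μ := by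
      rw [div_mul_eq_mul_div, div_le_iff₀ (by positivity)]
      nlinarith

end Pool.Agent.Results.MP_6bf1e5_an.BentVortexLines
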