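import Pool.Agent.H1EI.All

/-!
Energy flows into the singular points of Navier-Stokes flows.

`V` is `ℝ³` with the maximum norm (`closedBall a r` is a cube), `|x - a|` is the Euclidean distance and
`sph a ρ f` the integral of `f` over the Euclidean sphere `|x - a| = ρ`. A point `a` is singular at the
time `T` (`Sing T u a`) if `u` is unbounded in every neighbourhood of `(T, a)`.

If `u` solves the Navier-Stokes equations without force then `|u|²` satisfies a local conservation law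
with the flux `(|u|² + 2 p) u - ν ∇ |u|²` and the sink `2 ν |∇u|²`. The theorem says that energy has to
flow into every singular point: for every `δ ∈ (0, 1]` there are absolute constants `ε, θ, c > 0` such
that for a positive proportion (at least `c`) of the scales `r = θⁿ r₁`

`∫_{T - r²/ν}^T ∫_0^r (I(t, ρ) - ν J(t, ρ))₊ dρ dt > ε ν² r³`,

`I = -∫_{|x-a|=ρ} (x - a)·u (|u|² + 2 (p - c))`,
`J = ∫_{|x-a|=ρ} ((2 - δ) |u|² + (4 - δ) ν (T - t) |∇u|² + ε |p - c|)`, `c = c(t)` the mean value of the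
pressure in the cube with the radius `r`. (As `u` is free of divergence, `I` does not depend on `c`: it is
`ρ` times the net inflow of `(|u|² + 2 p) u` through the sphere.) In particular, arbitrarily near
`(T, a)` there are times `t` and spheres with `I > ν J + ε ν³` (`InflowAt.sphere` below).

So `a` is not singular if the net inflow of energy through all small spheres around `a` is at most
`ν J + ε ν³`, for example if there is no net inflow; and this is only needed in the mean over the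
spheres and the times, after cancellations on the spheres, with a one-sided bound, and at more than
the proportion `1 - c` of the scales. A pointwise consequence: `a` is not singular if
`|(x - a)·u| ≤ ε' ν` near `(T, a)`, a condition on the radial component of the velocity only
(`InflowAt.radial` below).

Proof. The weight `η = τ^{-1/2} exp(-|x-a|²/(4τ)) χ(|x-a|²/r²)`, `τ = T + (θr)² - t`, satisfies
`η_t + Δη = -η/τ` up to the terms with derivatives of `χ`, and `∇η = -(x - a) k`, `k ≥ 0`,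
`k = η/(2τ)` up to such terms. So `E = ∫ η |u|²` satisfies `E' ≤ -(δ/2) (E/τ + ∫ η |∇u|²)` up to
cut-off terms, the pressure and the excess of the inflow, and `τ^{-δ/2} E` is nearly nonincreasing: the
scaled energy and dissipation decay from the scale `r` to the scale `θr` by the factor `C θ^δ`. The
scaled oscillation of the pressure decays too, and a small scaled energy and dissipation at one scale
imply that `a` is not singular.
-/

set_option autoImplicit false

open MeasureTheory Set Metric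
open scoped ContDiff
open H459R3.NS
open W221.NS (nsq gsq)
open Pool.Agent.Q85.CL (DSl WSl Sing Blow)
open Pool.Agent.H1EI (sph)

namespace Pool.Agent.Results.MP_6bf1e5_an.EnergyInflow

/-- The net inflow `I = -∫_{|x-a|=ρ} (x - a)·v (|v|² + 2 (q - c))`. -/
noncomputable def inflow (c : ℝ) (a : V) (v : V → V) (q : V → ℝ) (ρ : ℝ) : ℝ :=
  sph a ρ (fun x => -(∑ i, (x i - a i) * v x i) * (nsq v x + 2 * (q x - c)))

/-- `J = ∫_{|x-a|=ρ} ((2 - δ) |v|² + (4 - δ) ν h |∇v|² + ε |q - c|)`. -/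
noncomputable def bound (ν δ ε h c : ℝ) (a : V) (v : V → V) (q : V → ℝ) (ρ : ℝ) : ℝ :=
  sph a ρ (fun x => (2 - δ) * nsq v x + (4 - δ) * (ν * h) * gsq v x + ε * |q x - c|)

/-- The excess of the inflow is large at the scale `r`: with the mean values `c(t)` of the pressure in
the cube `‖x - a‖ ≤ r`, `∫_{T - r²/ν}^T ∫_0^r (I - ν J)₊ dρ dt > ε ν² r³`. -/
def LargeInflow (ν δ ε T r : ℝ) (a : V) (u : ℝ → V → V) (p : ℝ → V → ℝ) : Prop :=
  ENNReal.ofReal (ε * ν ^ 2 * r ^ 3) < ∫⁻ t in Ioo (T - r ^ 2 / ν) T, ∫⁻ ρ in Ioo 0 r,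
    ENNReal.ofReal (inflow (⨍ y in closedBall a r, p t y) a (u t) (p t) ρ -
      ν * bound ν δ ε (T - t) (⨍ y in closedBall a r, p t y) a (u t) (p t) ρ)

/-- Energy flows into `a`: for every `r₁ > 0` with `r₁² ≤ ν T` and `{‖x - a‖ ≤ r₁} ⊆ Ω` there is a `K`
such that for all `N` the excess of the inflow is large at the scale `θⁿ r₁` for at least `c N - K` of
the numbers `n = 0, …, N - 1`. -/
def InflowAt (ν δ ε θ c T : ℝ) (Ω : Set V) (u : ℝ → V → V) (p : ℝ → V → ℝ) (a : V) : Prop :=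
  ∀ r₁ : ℝ, 0 < r₁ → r₁ ^ 2 ≤ ν * T → closedBall a r₁ ⊆ Ω → ∃ K : ℝ, ∀ N : ℕ,
    c * N - K ≤ ({n : ℕ | n < N ∧ LargeInflow ν δ ε T (θ ^ n * r₁) a u p}.ncard : ℝ)

theorem large_iff {ν δ ε T r : ℝ} {a : V} {u : ℝ → V → V} {p : ℝ → V → ℝ} :
    LargeInflow ν δ ε T r a u p ↔ ¬ Pool.Agent.H1EI.ExcLe ν δ ε T r a u p := by
  have h : ∀ x : ℝ, ENNReal.ofReal (max 0 x) = ENNReal.ofReal x := fun x => by
    rw [ENNReal.ofReal_max, ENNReal.ofReal_zero]
    exact max_eq_right zero_le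
  unfold LargeInflow Pool.Agent.H1EI.ExcLe Pool.Agent.H1EI.exc inflow bound Pool.Agent.H1EI.inw
  simp only [h, not_le]

theorem inflowAt_iff {ν δ ε θ c T : ℝ} {Ω : Set V} {u : ℝ → V → V} {p : ℝ → V → ℝ} {a : V} :
    InflowAt ν δ ε θ c T Ω u p a ↔ Pool.Agent.H1EI.InfP ν δ ε θ c T Ω u p a := by
  unfold InflowAt Pool.Agent.H1EI.InfP
  refine forall_congr' fun r₁ => forall_congr' fun _ => forall_congr' fun _ =>
    forall_congr' fun _ => exists_congr fun K => forall_congr' fun N => ?_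
  have h : {n : ℕ | n < N ∧ LargeInflow ν δ ε T (θ ^ n * r₁) a u p} =
      {n : ℕ | ¬ Pool.Agent.H1EI.ExcLe ν δ ε T (θ ^ n * r₁) a u p ∧ n < N} := by
    ext n
    simp only [mem_ofPred_eq, large_iff, and_comm]
  rw [h, sub_le_iff_le_add, add_comm]

/-- Energy flows into the singular points, at a positive proportion of the scales, for smooth solutions
of the Navier-Stokes equations without force, with viscosity `ν > 0`,

(a) in `(0, T) × Ω`, `Ω` open, with finite energy, finite dissipation and integrable pressure;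

(b) in `(0, T) × ℝ³` with bounded energy, finite dissipation and pressure integrable over
`(0, T) × B` for balls `B`;

(c) periodic, on `[0, T) × ℝ³`.

The constants `ε`, `θ`, `c` depend on `δ` only. In the cases (b) and (c) there is a singular point if
`u` is unbounded near the time `T`. -/
theorem result (δ : ℝ) (hδ : 0 < δ) (hδ1 : δ ≤ 1) :
    ∃ ε θ c : ℝ, 0 < ε ∧ 0 < θ ∧ θ < 1 ∧ 0 < c ∧
      ∀ (ν T : ℝ) (u : ℝ → V → V) (p : ℝ → V → ℝ), 0 < ν →
      (∀ (E : ℝ) (Ω : Set V), DSl ν T E Ω u p → ∀ a ∈ Ω, Sing T u a →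
        InflowAt ν δ ε θ c T Ω u p a) ∧
      (∀ E : ℝ, WSl ν T E u p → (Blow T u → ∃ a, Sing T u a) ∧
        ∀ a, Sing T u a → InflowAt ν δ ε θ c T univ u p a) ∧
      (IsSol ν T u p → (Blow T u → ∃ a, Sing T u a) ∧
        ∀ a, Sing T u a → InflowAt ν δ ε θ c T univ u p a) := by
  obtain ⟨ε, θ, c, hε, hθ, hθ1, hc, h⟩ := Pool.Agent.H1EI.all δ hδ hδ1
  refine ⟨ε, θ, c, hε, hθ, hθ1, hc, fun ν T u p hν => ⟨?_, ?_, ?_⟩⟩
  · exact fun E Ω hd a _ hs => inflowAt_iff.2 ((h ν T u p hν).1 E Ω hd a hs)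
  · exact fun E hw => ⟨((h ν T u p hν).2.1 E hw).1, fun a hs =>
      inflowAt_iff.2 (((h ν T u p hν).2.1 E hw).2 a hs)⟩
  · exact fun hs => ⟨((h ν T u p hν).2.2 hs).1, fun a ha =>
      inflowAt_iff.2 (((h ν T u p hν).2.2 hs).2 a ha)⟩

/-! ### Consequences -/

/-- There are times near `T` and small spheres with `I > ν J + ε ν³`. -/
theorem InflowAt.sphere {ν δ ε θ c T : ℝ} {Ω : Set V} {u : ℝ → V → V} {p : ℝ → V → ℝ} {a : V}
    (hν : 0 < ν) (hε : 0 < ε) (hθ : 0 < θ) (hθ1 : θ < 1) (hc : 0 < c) (hO : IsOpen Ω) (ha : a ∈ Ω)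
    (h : InflowAt ν δ ε θ c T Ω u p a) {T₀ R : ℝ} (h0 : 0 ≤ T₀) (hT₀ : T₀ < T) (hR : 0 < R) :
    ∃ t ∈ Ioo T₀ T, ∃ ρ ∈ Ioo 0 R, ∃ m : ℝ,
      ν * bound ν δ ε (T - t) m a (u t) (p t) ρ + ε * ν ^ 3 < inflow m a (u t) (p t) ρ := by
  have h1 := (inflowAt_iff.1 h).infAt hν hθ hθ1 hc (h0.trans_lt hT₀) hO ha
  obtain ⟨t, ht, -, ρ, hρ, r, -, -, hlt⟩ := h1.sphere hν hε hT₀ hR
  refine ⟨t, ht, ρ, hρ, ⨍ y in closedBall a r, p t y, ?_⟩
  have hpos : 0 < ε * ν ^ 3 := by positivity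
  rcases le_or_gt (inflow (⨍ y in closedBall a r, p t y) a (u t) (p t) ρ -
    ν * bound ν δ ε (T - t) (⨍ y in closedBall a r, p t y) a (u t) (p t) ρ) 0 with h2 | h2
  · have h3 : Pool.Agent.H1EI.exc ν δ ε (T - t) (⨍ y in closedBall a r, p t y) a (u t) (p t) ρ
        = 0 := max_eq_left h2
    rw [h3] at hlt
    exact absurd hlt (not_lt.2 hpos.le)
  · have h3 : Pool.Agent.H1EI.exc ν δ ε (T - t) (⨍ y in closedBall a r, p t y) a (u t) (p t) ρ
        = inflow (⨍ y in closedBall a r, p t y) a (u t) (p t) ρ -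
          ν * bound ν δ ε (T - t) (⨍ y in closedBall a r, p t y) a (u t) (p t) ρ :=
      max_eq_right h2.le
    rw [h3] at hlt
    linarith

/-- The radial component of the velocity is not small near a singular point. -/
theorem InflowAt.radial {ν δ ε θ c T : ℝ} {Ω : Set V} {u : ℝ → V → V} {p : ℝ → V → ℝ} {a : V}
    (hν : 0 < ν) (hδ : δ ≤ 1) (hε : 0 < ε) (hθ : 0 < θ) (hθ1 : θ < 1) (hc : 0 < c)
    (hO : IsOpen Ω) (ha : a ∈ Ω)
    (hu : ContDiffOn ℝ ∞ (fun z : ℝ × V => u z.1 z.2) (Ioo 0 T ×ˢ Ω))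
    (hp : ContDiffOn ℝ ∞ (fun z : ℝ × V => p z.1 z.2) (Ioo 0 T ×ˢ Ω))
    (h : InflowAt ν δ ε θ c T Ω u p a) {T₀ R : ℝ} (h0 : 0 ≤ T₀) (hT₀ : T₀ < T) (hR : 0 < R)
    (hRO : closedBall a R ⊆ Ω) :
    ∃ t ∈ Ioo T₀ T, ∃ x ∈ closedBall a R, min 1 (ε / 2) * ν < |∑ i, (x i - a i) * u t x i| := by
  have h1 := (inflowAt_iff.1 h).infAt hν hθ hθ1 hc (h0.trans_lt hT₀) hO ha
  obtain ⟨t, ht, -, x, hx, hlt⟩ := h1.radial hν hδ hε hO hu hp hT₀ hR hRO
  exact ⟨t, ht, x, hx, hlt⟩

end Pool.Agent.Results.MP_6bf1e5_an.EnergyInflow
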