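import Pool.Agent.H3NY.X.DistX
import Pool.Agent.H3NY.X.FinalG
import Pool.Agent.H3NY.X.FinalN
import Pool.Agent.H3NY.X.FinalU
import Pool.Agent.H3NY.X.Uniq6

set_option autoImplicit false

/-!
The exact threshold of uniqueness for solutions of the unforced Navier-Stokes equations with discrete singular times.

Let `a` be ANY real divergence-free initial datum on the torus: any distribution, more generally any formal Fourier
series (the coefficients `a k` may grow arbitrarily fast). Let `g` be any given positive function on `(0, t0]` which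
is nonincreasing, with `√t g(t)` nondecreasing. Consider the solutions `u` which start from `a` and are `C^∞` except
for a locally finite set `S` of times, which solve the equations in the sense of distributions also across the times
of `S` and satisfy `sup |u(t)| ≤ g (t - τ)` as `t → τ+` at each `τ ∈ S`.

* If `∫ g(t)² dt = ∞`, there are such solutions near ANY smooth path: let `w` be any `C^∞` path of periodic
  divergence-free fields on `[0, T)`, `0 < T ≤ ∞`, with the mean of `a`, which solves the equations on an open set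
  `O` of times (possibly empty, possibly `(0, ∞)`). Then `u` can be taken as near to `w` as one likes, also in the norm
  `√(t - τ) sup |u(t) - w(t)|`, with `S` outside of `O`; it attains `a` in every weighted norm of the scale
  `FB^{-1}_{1,r'}`, `r' > 2`, in which `a` is finite, and is continuous at all positive times in all the critical spaces
  `FB^{-1}_{1,r'}`, `r' > 2`.
* If `∫ g(t)² dt < ∞`, there is at most one such solution.
-/

open MeasureTheory Set Filter Topology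
open scoped ContDiff ENNReal

namespace Pool.Agent.Results.MP_6bf1e5_an.ExactThreshold

open Pool.Agent.H356R3.NS

/-- `w` is a `C^∞` path of periodic divergence-free fields with the mean `M` on `D × ℝ³`. -/
structure SmoothPath (D : Set ℝ) (w : ℝ → R3 → R3) (M : Fin 3 → ℂ) : Prop where
  smooth : ContDiffOn ℝ ∞ (fun z : ℝ × R3 => w z.1 z.2) (D ×ˢ univ)
  periodic : ∀ t ∈ D, ∀ x j, w t (x + Pi.single j 1) = w t x
  divFree : ∀ t ∈ D, ∀ x, ∑ i, pd i (fun y => w t y i) x = 0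
  mean : ∀ t ∈ D, fc (w t) 0 = M

/-- `u` satisfies the unforced Navier-Stokes equations with viscosity `ν` at the times of `O`, the pressure
`q` is periodic and `C^∞` on `O × ℝ³`. -/
structure Momentum (ν : ℝ) (O : Set ℝ) (u : ℝ → R3 → R3) (q : ℝ → R3 → ℝ) : Prop where
  smooth_q : ContDiffOn ℝ ∞ (fun z : ℝ × R3 => q z.1 z.2) (O ×ˢ univ)
  periodic_q : ∀ t ∈ O, ∀ x j, q t (x + Pi.single j 1) = q t x
  momentum : ∀ t ∈ O, ∀ x i, deriv (fun s => u s x i) t + ∑ j, u t x j * pd j (fun y => u t y i) x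
    = ν * ∑ j, pd j (pd j fun y => u t y i) x - pd i (q t) x

/-- `(u, q)` is a periodic solution of the unforced Navier-Stokes equations for the times of `D`, `C^∞` for
the times of `D \ S`; at each positive time of `D` the velocity `u` is `C^∞` from the left. -/
structure SmoothOff (ν : ℝ) (D S : Set ℝ) (u : ℝ → R3 → R3) (q : ℝ → R3 → ℝ) : Prop where
  smooth_u : ContDiffOn ℝ ∞ (fun z : ℝ × R3 => u z.1 z.2) ((D \ S) ×ˢ univ)
  solves : Momentum ν (D \ S) u q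
  periodic_u : ∀ t ∈ D, 0 < t → ∀ x j, u t (x + Pi.single j 1) = u t x
  divFree : ∀ t ∈ D, 0 < t → ∀ x, ∑ i, pd i (fun y => u t y i) x = 0
  left : ∀ t ∈ D, 0 < t → ∃ α < t, ContDiffOn ℝ ∞ (fun z : ℝ × R3 => u z.1 z.2) (Ioc α t ×ˢ univ)

/-- `∑_k (1 + |k|²)^s |v^(k)|`, a norm which controls all derivatives up to order `2 s`. -/
noncomputable def highNorm (s : ℕ) (v : R3 → R3) : ℝ≥0∞ :=
  ∑' k : Fin 3 → ℤ, ENNReal.ofReal ((1 + ∑ i, (k i : ℝ) ^ 2) ^ s) * ‖fc v k‖ₑ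

/-- The norm `|a - b|` of `FB^{-1}_{1,r}` for Fourier coefficients `a`, `b` with the same mean. -/
noncomputable def critDiff (r : ℝ) (a b : (Fin 3 → ℤ) → Fin 3 → ℂ) : ℝ≥0∞ := critNorm r fun k => a k - b k

/-- `(u·∇)u + ∇q` -/
noncomputable def nonlin (u : R3 → R3) (q : R3 → ℝ) : R3 → R3 := fun x i =>
  ∑ j, u x j * pd j (fun y => u y i) x + pd i q x

/-- The equations with the initial value `a`, integrated over `[0, t]` for all `t ∈ D`, for every Fourier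
coefficient: the coefficients of the nonlinear term `(u·∇)u + ∇q` are integrable in time over `[0, t]`, with
integrals of size `O(1 + |k| + |a k|)`, so the equations hold in the sense of distributions on `D × ℝ³` if `a` is
a distribution. -/
structure Integrated (ν : ℝ) (D : Set ℝ) (a : (Fin 3 → ℤ) → Fin 3 → ℂ) (u : ℝ → R3 → R3) (q : ℝ → R3 → ℝ) :
    Prop where
  bound : ∀ t ∈ D, ∃ C : ℝ, ∀ k, ∫⁻ x in Ioc 0 t, ‖fc (nonlin (u x) (q x)) k‖ₑ
    ≤ ENNReal.ofReal (C * (1 + √(∑ j, (k j : ℝ) ^ 2) + ‖a k‖))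
  integrable_u : ∀ t ∈ D, 0 < t → ∀ k i, IntervalIntegrable (fun x => fc (u x) k i) volume 0 t
  integrable : ∀ t ∈ D, 0 < t → ∀ k i, IntervalIntegrable (fun x => fc (nonlin (u x) (q x)) k i) volume 0 t
  equation : ∀ t ∈ D, 0 < t → ∀ k i, fc (u t) k i = a k i - ∫ x in (0 : ℝ)..t,
    (4 * Real.pi ^ 2 * ν * (∑ j, (k j : ℂ) ^ 2) * fc (u x) k i + fc (nonlin (u x) (q x)) k i)

/-- `(u, q)` is a solution from the datum `a` for the times of `D`, `C^∞` except for the times of the discrete set `S`,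
which solves the equations in the sense of distributions also across the times of `S`. -/
structure Sol (ν : ℝ) (D : Set ℝ) (a : (Fin 3 → ℤ) → Fin 3 → ℂ) (S : Set ℝ) (u : ℝ → R3 → R3) (q : ℝ → R3 → ℝ) :
    Prop where
  zero_mem : 0 ∈ S
  subset : S ⊆ D
  finite : ∀ t ∈ D, (S ∩ Iic t).Finite
  smoothOff : SmoothOff ν D S u q
  integrated : Integrated ν D a u q

/-- `sup |u(t)| ≤ g (t - τ)` as `t → τ+`, for each `τ ∈ S`. -/
def Rate (g : ℝ → ℝ) (S : Set ℝ) (u : ℝ → R3 → R3) : Prop :=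
  ∀ τ ∈ S, ∀ᶠ t in 𝓝[>] τ, ∀ y, ‖u t y‖ ≤ g (t - τ)

lemma Sol.uh {ν : ℝ} {D S : Set ℝ} {a : (Fin 3 → ℤ) → Fin 3 → ℂ} {u : ℝ → R3 → R3} {P : ℝ → R3 → ℝ}
    (h : Sol ν D a S u P) (h2 : ∀ t ∈ D, ∫⁻ x in Ioc 0 t, (⨆ y, ‖u x y‖ₑ) ^ 2 < ⊤) : X.UH ν D S a u P :=
  { zero := h.zero_mem
    fin := h.finite
    smu := h.smoothOff.smooth_u
    smp := h.smoothOff.solves.smooth_q
    peu := h.smoothOff.periodic_u
    pep := h.smoothOff.solves.periodic_q
    div := h.smoothOff.divFree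
    mom := h.smoothOff.solves.momentum
    left := h.smoothOff.left
    intu := h.integrated.integrable_u
    int := h.integrated.integrable
    eqn := fun t ht ht0 k i => by
      rw [h.integrated.equation t ht ht0 k i]
      congr 2
      funext x
      have e1 : ((4 * Real.pi ^ 2 * ν * Pool.Agent.H356R3.NS.sq k : ℝ) : ℂ)
          = 4 * Real.pi ^ 2 * ν * (∑ j, (k j : ℂ) ^ 2) := by
        unfold Pool.Agent.H356R3.NS.sq
        push_cast
        rfl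
      rw [e1]
      rfl
    sup := h2 }

theorem result (ν : ℝ) (hν : 0 < ν) (D : Set ℝ) (hD : D = Ici 0 ∨ ∃ T, 0 < T ∧ D = Ico 0 T)
    (a : (Fin 3 → ℤ) → Fin 3 → ℂ) (hreal : ∀ k i, a (-k) i = star (a k i))
    (hdiv : ∀ k, ∑ i, (k i : ℂ) * a k i = 0)
    (g : ℝ → ℝ) (t0 : ℝ) (ht0 : 0 < t0) (hg : ∀ t ∈ Ioc 0 t0, 0 < g t)
    (hg1 : AntitoneOn g (Ioc 0 t0)) (hg2 : MonotoneOn (fun t => √t * g t) (Ioc 0 t0)) :
    -- existence near any path if `∫ g² = ∞`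
    (∫⁻ t in Ioc 0 t0, ENNReal.ofReal (g t ^ 2) = ⊤ →
      ∀ (r : ℝ) (_ : 2 < r) (w : ℝ → R3 → R3) (_ : SmoothPath D w (a 0))
      (O : Set ℝ) (_ : IsOpen O) (_ : O ⊆ D) (q : ℝ → R3 → ℝ) (_ : Momentum ν O w q)
      (p : ℝ) (_ : 1 ≤ p ∧ p < 2) (δ : ℝ) (_ : 0 < δ) (s : ℕ)
      (ε : ℝ → ℝ) (_ : ∀ t ∈ D, ∃ e > 0, ∀ x ∈ D, x ≤ t → e ≤ ε x)
      (_ : (∀ t ∈ D, ∃ x ∈ D \ O, t < x) ∨ (D = Ici 0 ∧ ∃ e > 0, ∀ t ∈ D, e ≤ ε t)),
      ∃ (S : Set ℝ) (u : ℝ → R3 → R3) (P : ℝ → R3 → ℝ),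
        Sol ν D a S u P ∧ S ∩ O = ∅ ∧ Rate g S u ∧
        (∀ r' : ℝ, 2 < r' → ∀ φ : (Fin 3 → ℤ) → ℝ, (∀ k, 0 ≤ φ k ∧ φ k ≤ 1) → critNorm r' (fun k => φ k • a k) < ⊤ →
          Tendsto (fun t => critNorm r' fun k => φ k • (fc (u t) k - a k)) (𝓝[>] 0) (𝓝 0)) ∧
        (∀ r' : ℝ, 2 < r' → ∀ t ∈ D, 0 < t → Tendsto (fun x => critDiff r' (fc (u x)) (fc (u t))) (𝓝 t) (𝓝 0)) ∧
        (∀ t ∈ D, 0 < t → fc (u t) 0 = a 0) ∧
        (∀ p' : ℝ, 1 ≤ p' → p' < 2 → ∀ t ∈ D, ∫⁻ x in Ioc 0 t, (⨆ y, ‖u x y‖ₑ) ^ p' < ⊤) ∧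
        (∀ t ∈ D, ∫⁻ x in D ∩ Ioc t (t + 1), (⨆ y, ‖u x y - w x y‖ₑ) ^ p ≤ ENNReal.ofReal (ε t)) ∧
        (∀ t ∈ D, 0 < t → critDiff r (fc (u t)) (fc (w t)) ≤ 4 * critDiff r a (fc (w 0)) + ENNReal.ofReal (ε t)) ∧
        (∀ t ∈ D, δ ≤ t → critDiff r (fc (u t)) (fc (w t)) ≤ ENNReal.ofReal (ε t)) ∧
        (∀ τ ∈ S, ∀ t ∈ D, τ < t → S ∩ Ioo τ t = ∅ → ∀ x, √(min (t - τ) 1) * ‖u t x - w t x‖ ≤ ε t) ∧
        ∀ t ∈ D, S ∩ Icc (t - δ) t = ∅ → highNorm s (fun x => u t x - w t x) ≤ ENNReal.ofReal (ε t)) ∧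
    -- uniqueness if `∫ g² < ∞`
    (∫⁻ t in Ioc 0 t0, ENNReal.ofReal (g t ^ 2) < ⊤ →
      ∀ (S₁ S₂ : Set ℝ) (u₁ u₂ : ℝ → R3 → R3) (P₁ P₂ : ℝ → R3 → ℝ), Sol ν D a S₁ u₁ P₁ → Sol ν D a S₂ u₂ P₂ →
        Rate g S₁ u₁ → Rate g S₂ u₂ → ∀ t ∈ D, 0 < t → u₁ t = u₂ t) := by
  have hsubD : ∀ T ∈ D, Icc 0 T ⊆ D := by
    intro T hT t ht
    rcases hD with h1 | ⟨T', -, h1⟩
    · rw [h1]; exact ht.1
    · rw [h1] at hT ⊢
      exact ⟨ht.1, ht.2.trans_lt hT.2⟩
  have hD0 : ∀ t ∈ D, 0 ≤ t := by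
    intro t ht
    rcases hD with h1 | ⟨T', -, h1⟩
    · rw [h1] at ht; exact ht
    · rw [h1] at ht; exact ht.1
  refine ⟨fun hg3 r hr w hw O hO hOD q hq p hp δ hδ s ε hε hc => ?_,
    fun hg3 S₁ S₂ u₁ u₂ P₁ P₂ h₁ h₂ r₁ r₂ t ht htp => ?_⟩
  swap
  · have l : ∀ (S : Set ℝ) (u : ℝ → R3 → R3) (P : ℝ → R3 → ℝ), Sol ν D a S u P → Rate g S u →
        ∀ t ∈ D, ∫⁻ x in Ioc 0 t, (⨆ y, ‖u x y‖ₑ) ^ 2 < ⊤ := fun S u P h hrt t ht =>
      X.rate_sup h.zero_mem h.finite h.smoothOff.smooth_u h.smoothOff.periodic_u h.smoothOff.left ht0 hg3 hrt (hD0 t ht)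
        (hsubD t ht)
    exact X.uniq hν (h₁.uh (l _ _ _ h₁ r₁)) (h₂.uh (l _ _ _ h₂ r₂)) htp (Ioc_subset_Icc_self.trans (hsubD t ht))
  obtain ⟨m, hm⟩ : ∃ m : E3, m = fun i => (a 0 i).re := ⟨_, rfl⟩
  have ham : ∀ i, a 0 i = (m i : ℂ) := fun i => by rw [hm]; exact X.sym_re hreal i
  have hadm : X.AdmC m a := ⟨hreal, hdiv, ham⟩
  have hsub : ∀ T ∈ D, Ico 0 T ⊆ D := by
    intro T hT t ht
    rcases hD with h1 | ⟨T', -, h1⟩
    · rw [h1]; exact ht.1
    · rw [h1] at hT ⊢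
      exact ⟨ht.1, ht.2.trans hT.2⟩
  have h2s : (0 : ℝ) < 2 ^ s := by positivity
  have h2s1 : (1 : ℝ) ≤ 2 ^ s := one_le_pow₀ (by norm_num)
  have hga : X.Gau fun t => √t * g t := X.gau_of ht0 hg hg2 hg1 hg3
  obtain ⟨sq, gi, δ1, e, A, U, Q, h⟩ := X.mainU hga (ε := fun t => ε t / 2 ^ s) (δ := min δ 1) (sN := 2 * s) hν hD hO hOD
    (fun T hT => ⟨⟨fun i => (contDiffOn_pi.1 hw.smooth i).mono (prod_mono (hsub T hT) subset_rfl),
      fun t ht => hw.periodic t (hsub T hT ht)⟩, fun t ht => hw.divFree t (hsub T hT ht), fun t ht i => by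
        rw [hw.mean t (hsub T hT ht), ham]⟩)
    ⟨hq.smooth_q, hq.periodic_q, hq.momentum⟩
    (hc.imp_right fun h1 => ⟨h1.1, by
      obtain ⟨e, he, he1⟩ := h1.2
      exact ⟨e / 2 ^ s, by positivity, fun t ht => div_le_div_of_nonneg_right (he1 t ht) h2s.le⟩⟩)
    (fun t ht => by
      obtain ⟨e, he, he1⟩ := hε t ht
      exact ⟨e / 2 ^ s, by positivity, fun x hx hxt => div_le_div_of_nonneg_right (he1 x hx hxt) h2s.le⟩)
    hr hp.1 hp.2 (lt_min hδ one_pos) (min_le_right _ _) hadm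
  have hle : ∀ t ∈ D, ENNReal.ofReal (ε t / 2 ^ s) ≤ ENNReal.ofReal (ε t) := fun t ht => by
    obtain ⟨e, he, he1⟩ := hε t ht
    exact ENNReal.ofReal_le_ofReal (div_le_self (he.le.trans (he1 t ht le_rfl)) h2s1)
  have hsu := X.glue_smooth h.gm (V := U) fun i => (h.pb i).sm_u
  have hpos : ∀ t ∈ D \ X.SB sq gi, 0 < t := fun t ht => (h.gm.both ht.1 ht.2).1
  have hSO : X.SB sq gi ∩ O = ∅ := by
    ext x
    simp only [mem_inter_iff, mem_empty_iff_false, iff_false, not_and]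
    exact fun h1 => (h.gm.SB_sub h1).2
  refine ⟨X.SB sq gi, X.GU sq gi U, X.GU sq gi Q, ⟨h.gm.zero_mem, fun x hx => (h.gm.SB_sub hx).1, fun t ht => h.gm.SB_fin ht,
    ⟨hsu, ⟨X.glue_smooth h.gm (V := Q) fun i => (h.pb i).sm_p, fun t _ => (h.pb _).per_p t, fun t ht => h.mom ht⟩,
      fun t _ _ => (h.pb _).per_u t, fun t ht ht0 => h.divf ht ht0, fun t ht ht0 => ?_⟩,
    ⟨fun t ht => ?_, fun t ht ht0 k i => (h.dist hr k i ht ht0).1, fun t ht ht0 k i => (h.dist hr k i ht ht0).2.1, fun t ht ht0 k i => ?_⟩⟩,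
    hSO, fun τ hτ => ?_, fun r' hr' φ hφ ha' => h.start r' hr' φ hφ ha'.ne, fun r' hr' t ht ht0 => h.cont ht ht0 hr', fun t ht ht0 => h.mean ht ht0,
    fun p' h1 h2 t ht => lt_top_iff_ne_top.2 (h.lq h1 h2 ht),
    fun t ht => (h.win hp.1 (min_le_right _ _) ht).trans (hle t ht),
    fun t ht ht0 => (h.cr ht ht0).trans (add_le_add le_rfl (hle t ht)),
    fun t ht htδ => (h.crd (by linarith) ht (hδ.trans_le htδ) ((min_le_left _ _).trans htδ)).trans (hle t ht),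
    fun τ hτ t ht hτt hno x => (h.kt ht hτ hτt hno x).trans ?_, fun t ht hS => ?_⟩
  · obtain ⟨α, -, h1, h2⟩ := X.glue_left h.gm (V := U) (fun i => (h.pb i).sm_u) ht ht0
    exact ⟨α, h1, h2⟩
  · obtain ⟨C, -, hC⟩ := h.nl ht
    exact ⟨C, fun k => hC k⟩
  · rw [(h.dist hr k i ht ht0).2.2]
    congr 2
    funext x
    have e1 : ((4 * Real.pi ^ 2 * ν * Pool.Agent.H356R3.NS.sq k : ℝ) : ℂ)
        = 4 * Real.pi ^ 2 * ν * (∑ j, (k j : ℂ) ^ 2) := by
      unfold Pool.Agent.H356R3.NS.sq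
      push_cast
      rfl
    rw [e1]
    rfl
  · filter_upwards [X.CHN.kr hga h hτ, self_mem_nhdsWithin] with t h1 h2 y
    have h3 : 0 < √(t - τ) := Real.sqrt_pos.2 (sub_pos.2 h2)
    exact le_of_mul_le_mul_left (h1 y) h3
  · obtain ⟨e, he, he1⟩ := hε t ht
    have h0 : 0 < ε t := he.trans_le (he1 t ht le_rfl)
    have h1 : ε t / 2 ^ s ≤ ε t := div_le_self h0.le h2s1
    have h2 : 0 < ε t / 2 ^ s := by positivity
    linarith
  · have hmem : ∀ x ∈ X.SB sq gi, t - min δ 1 ≤ x → t < x := by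
      intro x hx h1
      by_contra hcon
      push Not at hcon
      have h2 : x ∈ X.SB sq gi ∩ Icc (t - δ) t := ⟨hx, by have := min_le_left δ 1; linarith, hcon⟩
      rw [hS] at h2
      exact h2
    have ht0 : 0 < t := by
      refine lt_of_le_of_ne (h.gm.hD.nn t ht) fun h1 => ?_
      have h2 := hmem 0 h.gm.zero_mem (by rw [← h1]; have := lt_min hδ one_pos; linarith)
      linarith
    have h1 := h.cl ht ht0 hmem
    have hcu : Continuous (X.GU sq gi U t) :=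
      ((h.pb (gi (X.jx sq t))).spat (h.gm.JB_pos (h.gm.mem_JB ht ht0))).continuous
    have hcw : Continuous (w t) := by
      have := hw.smooth.continuousOn.comp_continuous (f := fun x : R3 => ((t, x) : ℝ × R3)) (by fun_prop)
        (fun x => ⟨ht, mem_univ _⟩)
      exact this
    have e1 : ∀ k, fc (fun x => X.GU sq gi U t x - w t x) k = fc (X.GU sq gi U t) k - fc (w t) k := fun k =>
      Pool.Agent.H3NS.fc_sub hcu hcw k
    have hεt : 0 < ε t := by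
      obtain ⟨e, he, he1⟩ := hε t ht
      exact he.trans_le (he1 t ht le_rfl)
    calc highNorm s (fun x => X.GU sq gi U t x - w t x)
        ≤ ∑' k : K, ENNReal.ofReal (2 ^ s) * ((1 + ENNReal.ofReal (nk k ^ (2 * s)))
            * ‖fc (X.GU sq gi U t) k - fc (w t) k‖ₑ) := by
          refine ENNReal.tsum_le_tsum fun k => ?_
          rw [e1, ← mul_assoc]
          apply mul_le_mul' _ le_rfl
          have h0 : 0 ≤ nk k ^ (2 * s) := pow_nonneg (nk_nonneg k) _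
          rw [← ENNReal.ofReal_one, ← ENNReal.ofReal_add zero_le_one h0, ← ENNReal.ofReal_mul h2s.le]
          exact ENNReal.ofReal_le_ofReal (X.nk_pow_ge k s)
      _ = ENNReal.ofReal (2 ^ s) * ∑' k : K, (1 + ENNReal.ofReal (nk k ^ (2 * s)))
            * ‖fc (X.GU sq gi U t) k - fc (w t) k‖ₑ := by
          rw [ENNReal.tsum_mul_left]
      _ ≤ ENNReal.ofReal (2 ^ s) * ENNReal.ofReal (ε t / 2 ^ s / 8) := mul_le_mul' le_rfl h1
      _ ≤ _ := by
          rw [← ENNReal.ofReal_mul h2s.le]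
          apply ENNReal.ofReal_le_ofReal
          have : 2 ^ s * (ε t / 2 ^ s / 8) = ε t / 8 := by field_simp
          rw [this]
          linarith

end Pool.Agent.Results.MP_6bf1e5_an.ExactThreshold
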