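import Pool.Agent.H4NI.AllI

/-!
Navier-Stokes on the torus: one component of the velocity, up to an arbitrary function of time and
the two other variables, controls the whole solution, up to the scaling-critical line; the same for
one diagonal entry of the gradient of the velocity, from one side.
-/

set_option autoImplicit false

open MeasureTheory Set Function
open scoped ENNReal

namespace Pool.Agent.Results.MP_6bf1e5_an.LineOscillation

open H459R3.NS Pool.Agent.H4LA

/-- Let `(u, p)` be a smooth `1`-periodic solution of the Navier-Stokes equations on `[0, T)`,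
`j` a coordinate, `2 < a` and either `2 / s + 1 / a + 2 / r < 1` and `∫ |g| ^ s < ∞`, or
`2 / s + 1 / a + 2 / r ≤ 1`, `r < ∞` and `g` in the Lorentz space `L^{s,1}(0, T)`. If for almost
every `t` there is a function `c` of the coordinates other than `j` such that the norm of
`uⱼ(t) - c` in `L^a` of the `j`-th coordinate with values in `L^r` of the others is at most `g t`,
or if the `L^r` norm of the integral of the positive part of `∂ⱼuⱼ(t)` over the lines in the
direction `j` is, then `u` is bounded on `[0, T)`. -/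
theorem result {ν T : ℝ} {u : ℝ → V → V} {p : ℝ → V → ℝ} (h : IsSol ν T u p) (hν : 0 < ν)
    (j : Fin 3) {s : ℝ} {a r : ℝ≥0∞} (ha : 2 < a) {g : ℝ → ℝ}
    (hg : (2 / ENNReal.ofReal s + 1 / a + 2 / r < 1 ∧
        IntegrableOn (fun t => |g t| ^ s) (Ioo 0 T)) ∨
      (2 / ENNReal.ofReal s + 1 / a + 2 / r ≤ 1 ∧ r ≠ ⊤ ∧
        AEMeasurable g (volume.restrict (Ioo 0 T)) ∧
        ∫⁻ lam in Ioi (0 : ℝ), volume {t | t ∈ Ioo 0 T ∧ lam < |g t|} ^ (1 / s) ≠ ⊤))
    (ho : ∀ᵐ t ∂(volume.restrict (Ioo 0 T)),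
      (∃ c : V → ℝ, Measurable c ∧ (∀ x σ, c (update x j σ) = c x) ∧
        mixNorm j a r (fun x => u t x j - c x) ≤ ENNReal.ofReal (g t)) ∨
      eLpNorm (fun x => ∫ σ in Icc (0 : ℝ) 1, max (pd j (fun y => u t y j) (update x j σ)) 0) r
        (volume.restrict cube) ≤ ENNReal.ofReal (g t)) :
    ∃ M, ∀ t ∈ Ico 0 T, ∀ x i, |u t x i| ≤ M :=
  Pool.Agent.H4NI.finalI Pool.Agent.H4NC.sup Pool.Agent.H4NC.f3 Pool.Agent.H4NI.is
    Pool.Agent.H4NI.if3 Pool.Agent.H4NC.A9.t Pool.Agent.H4NC.A10.t Pool.Agent.H4NC.A11.t h hν j ha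
    hg ho

end Pool.Agent.Results.MP_6bf1e5_an.LineOscillation
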